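import Pool.Agent.QUD.StmtsV

/-!
# Squad QUD, row SQC (helper50): the coefficient of the square root at the singularity
-/

set_option autoImplicit false

namespace Pool.Agent.QUD.H50

open MeasureTheory Filter Topology Real Set Pool.Agent.QUD

/-! ### analytic functions -/

lemma lip_of_an {f : ℝ → ℝ} {z0 : ℝ} (hf : AnalyticOnNhd ℝ f (Icc 0 z0)) :
    ∃ K : ℝ, 0 ≤ K ∧ ∀ x ∈ Icc 0 z0, ∀ y ∈ Icc 0 z0, |f x - f y| ≤ K * |x - y| := by
  have h1 : ContinuousOn (deriv f) (Icc 0 z0) := hf.deriv.continuousOn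
  obtain ⟨K, hK⟩ := isCompact_Icc.exists_bound_of_continuousOn h1
  refine ⟨|K|, abs_nonneg K, ?_⟩
  intro x hx y hy
  have h2 := Convex.norm_image_sub_le_of_norm_deriv_le (𝕜 := ℝ) (f := f) (C := |K|)
    (fun x hx => (hf x hx).differentiableAt)
    (fun x hx => (hK x hx).trans (le_abs_self K)) (convex_Icc 0 z0) hy hx
  exact h2

lemma an_dslope {f : ℝ → ℝ} {a z0 : ℝ} (ha : a ∈ Icc 0 z0) (hf : AnalyticOnNhd ℝ f (Icc 0 z0)) :
    AnalyticOnNhd ℝ (dslope f a) (Icc 0 z0) := by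
  intro b hb
  by_cases hab : b = a
  · subst hab
    obtain ⟨p, hp⟩ := hf b hb
    exact ⟨_, hp.has_fpower_series_dslope_fslope⟩
  · have h1 : AnalyticAt ℝ (fun x => (x - a)⁻¹ * (f x - f a)) b := by
      have h2 : AnalyticAt ℝ (fun x : ℝ => x - a) b := analyticAt_id.sub analyticAt_const
      have h3 : AnalyticAt ℝ (fun x : ℝ => (x - a)⁻¹) b := h2.inv (sub_ne_zero.2 hab)
      exact h3.mul ((hf b hb).sub analyticAt_const)
    refine h1.congr ?_
    filter_upwards [isOpen_ne.mem_nhds hab] with x hx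
    rw [dslope_of_ne _ hx, slope_def_field, div_eq_inv_mul]

/-! ### trigonometric bounds -/

lemma X_mem {z z0 t : ℝ} (hz : z ∈ Icc 0 z0) : z * sin t ^ 2 ∈ Icc 0 z0 := by
  have h1 : sin t ^ 2 ≤ 1 := sin_sq_le_one t
  have h2 : 0 ≤ sin t ^ 2 := sq_nonneg _
  constructor
  · exact mul_nonneg hz.1 h2
  · nlinarith [hz.1, hz.2]

lemma oneX_pos {z z0 t : ℝ} (hz : z ∈ Icc 0 z0) (_ : z0 < 1) : 1 - z0 ≤ 1 - z * sin t ^ 2 := by
  have h := (X_mem (t := t) hz).2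
  linarith

lemma Y_eq {z z0 t : ℝ} (hz : z ∈ Icc 0 z0) (h0 : z0 < 1) :
    Yv z t * (1 - z * sin t ^ 2) = z * cos t ^ 2 := by
  have h := oneX_pos (t := t) hz h0
  unfold Yv
  rw [div_mul_cancel₀]
  linarith

lemma Y_mem {z z0 t : ℝ} (hz : z ∈ Icc 0 z0) (h0 : z0 < 1) : Yv z t ∈ Icc 0 z0 := by
  have h := oneX_pos (t := t) hz h0
  have h1 : 0 < 1 - z * sin t ^ 2 := by linarith
  have h2 : sin t ^ 2 ≤ 1 := sin_sq_le_one t
  have h3 := sin_sq_add_cos_sq t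
  unfold Yv
  constructor
  · exact div_nonneg (mul_nonneg hz.1 (sq_nonneg _)) h1.le
  · rw [div_le_iff₀ h1]
    have h4 : z * cos t ^ 2 ≤ z * (1 - z * sin t ^ 2) := by
      refine mul_le_mul_of_nonneg_left ?_ hz.1
      have h5 : z * sin t ^ 2 ≤ sin t ^ 2 := by nlinarith [sq_nonneg (sin t), hz.2]
      linarith
    exact h4.trans (mul_le_mul_of_nonneg_right hz.2 h1.le)

lemma Y_le {z z0 t : ℝ} (hz : z ∈ Icc 0 z0) (h0 : z0 < 1) :
    Yv z t ≤ cos t ^ 2 / (1 - z0) := by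
  have h := oneX_pos (t := t) hz h0
  have h1 : 0 < 1 - z0 := by linarith
  have h2 := Y_eq (t := t) hz h0
  have h3 := (Y_mem (t := t) hz h0).1
  rw [le_div_iff₀ h1]
  have h4 : Yv z t * (1 - z0) ≤ Yv z t * (1 - z * sin t ^ 2) :=
    mul_le_mul_of_nonneg_left h h3
  have h5 : z * cos t ^ 2 ≤ 1 * cos t ^ 2 :=
    mul_le_mul_of_nonneg_right (by linarith [hz.2]) (sq_nonneg _)
  linarith

lemma cont_X (z : ℝ) : Continuous fun t : ℝ => z * sin t ^ 2 := by fun_prop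

lemma cont_oneX {z z0 : ℝ} (hz : z ∈ Icc 0 z0) (h0 : z0 < 1) :
    Continuous fun t : ℝ => 1 / (1 - z * sin t ^ 2) := by
  refine Continuous.div continuous_const (by fun_prop) ?_
  intro t
  have h := oneX_pos (t := t) hz h0
  have h1 : 0 < 1 - z * sin t ^ 2 := by linarith
  exact h1.ne'

lemma cont_Y {z z0 : ℝ} (hz : z ∈ Icc 0 z0) (h0 : z0 < 1) : Continuous fun t : ℝ => Yv z t := by
  unfold Yv
  refine Continuous.div (by fun_prop) (by fun_prop) ?_
  intro t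
  have h := oneX_pos (t := t) hz h0
  have h1 : 0 < 1 - z * sin t ^ 2 := by linarith
  exact h1.ne'

lemma cont_comp {p : ℝ → ℝ} {z0 : ℝ} (hp : AnalyticOnNhd ℝ p (Icc 0 z0)) {u : ℝ → ℝ}
    (hu : Continuous u) (hm : ∀ t, u t ∈ Icc 0 z0) : Continuous fun t => p (u t) :=
  hp.continuousOn.comp_continuous hu hm

lemma intg {u : ℝ → ℝ} (hu : Continuous u) : IntegrableOn u (Ioo 0 (π / 2)) :=
  (hu.integrableOn_Icc).mono_set Ioo_subset_Icc_self

/-! ### the decomposition -/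

lemma alg {r g : ℝ → ℝ} {z0 X Y : ℝ} (hg0 : g z0 = g 0) (hX : X ≠ z0) :
    r X * (g X - g Y) / (z0 - X) =
      (-dslope (fun x => r x * g x) z0 X + g Y * dslope r z0 X)
        - r z0 * (Y * dslope g 0 Y) / (z0 - X) := by
  have h1 := sub_smul_dslope (fun x => r x * g x) z0 X
  have h2 := sub_smul_dslope r z0 X
  have h3 := sub_smul_dslope g 0 Y
  simp only [smul_eq_mul, sub_zero] at h1 h2 h3
  have hne : z0 - X ≠ 0 := sub_ne_zero.2 (Ne.symm hX)
  rw [h3, eq_sub_iff_add_eq, ← add_div, div_eq_iff hne]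
  linear_combination (-1) * h1 + g Y * h2 + r z0 * hg0

/-- the Lipschitz part of the integrand -/
noncomputable def FF (r g : ℝ → ℝ) (z0 z t : ℝ) : ℝ :=
  (-dslope (fun x => r x * g x) z0 (z * sin t ^ 2) + g (Yv z t) * dslope r z0 (z * sin t ^ 2))
    + (-r z0) * (dslope g 0 (Yv z t) * (1 / (1 - z * sin t ^ 2)))

/-- the factor of the singular part -/
noncomputable def kk (g : ℝ → ℝ) (z t : ℝ) : ℝ :=
  dslope g 0 (Yv z t) * (1 / (1 - z * sin t ^ 2))

lemma decomp {r g : ℝ → ℝ} {z0 z : ℝ} (h1 : z0 < 1) (hg0 : g z0 = g 0)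
    (hz : 0 < z) (hzz : z < z0) (t : ℝ) :
    r (z * sin t ^ 2) * (g (z * sin t ^ 2) - g (Yv z t)) / (z0 - z * sin t ^ 2) =
      FF r g z0 z t + r z0 * ((z0 - z) * (kk g z t * (1 / ((z0 - z) + z * cos t ^ 2)))) := by
  have hzm : z ∈ Icc 0 z0 := ⟨hz.le, hzz.le⟩
  have hX := oneX_pos (t := t) hzm h1
  have hX1 : 0 < 1 - z * sin t ^ 2 := by linarith
  have hsc := sin_sq_add_cos_sq t
  have hD : z0 - z * sin t ^ 2 = (z0 - z) + z * cos t ^ 2 := by
    linear_combination (-z) * hsc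
  have hDp : 0 < (z0 - z) + z * cos t ^ 2 := by
    have := mul_nonneg hz.le (sq_nonneg (cos t))
    linarith
  have hne : z * sin t ^ 2 ≠ z0 := by
    intro h
    rw [← hD] at hDp
    linarith
  have hY := Y_eq (t := t) hzm h1
  rw [alg hg0 hne, hD]
  unfold FF kk
  have h2 : Yv z t = z * cos t ^ 2 / (1 - z * sin t ^ 2) := rfl
  have h3 : r z0 * (Yv z t * dslope g 0 (Yv z t)) / ((z0 - z) + z * cos t ^ 2) =
      r z0 * (dslope g 0 (Yv z t) * (1 / (1 - z * sin t ^ 2))) -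
      r z0 * ((z0 - z) * (dslope g 0 (Yv z t) * (1 / (1 - z * sin t ^ 2)) *
        (1 / ((z0 - z) + z * cos t ^ 2)))) := by
    set d := dslope g 0 (Yv z t)
    rw [h2]
    field_simp
    ring
  rw [h3]
  ring

/-! ### the main part -/

lemma cont_kk {g : ℝ → ℝ} {z z0 : ℝ} (h0 : 0 < z0) (h1 : z0 < 1)
    (hg : AnalyticOnNhd ℝ g (Icc 0 z0)) (hz : z ∈ Icc 0 z0) : Continuous (kk g z) := by
  have hH : AnalyticOnNhd ℝ (dslope g 0) (Icc 0 z0) := an_dslope (left_mem_Icc.2 h0.le) hg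
  unfold kk
  exact (cont_comp hH (cont_Y hz h1) (fun t => Y_mem hz h1)).mul (cont_oneX hz h1)

lemma cont_FF {r g : ℝ → ℝ} {z z0 : ℝ} (h0 : 0 < z0) (h1 : z0 < 1)
    (hr : AnalyticOnNhd ℝ r (Icc 0 z0)) (hg : AnalyticOnNhd ℝ g (Icc 0 z0))
    (hz : z ∈ Icc 0 z0) : Continuous (FF r g z0 z) := by
  have hP : AnalyticOnNhd ℝ (dslope (fun x => r x * g x) z0) (Icc 0 z0) :=
    an_dslope (right_mem_Icc.2 h0.le) (hr.mul hg)
  have hQ : AnalyticOnNhd ℝ (dslope r z0) (Icc 0 z0) := an_dslope (right_mem_Icc.2 h0.le) hr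
  have hk := cont_kk h0 h1 hg hz
  unfold FF
  unfold kk at hk
  exact ((cont_comp hP (cont_X z) (fun t => X_mem hz)).neg.add
    ((cont_comp hg (cont_Y hz h1) (fun t => Y_mem hz h1)).mul
      (cont_comp hQ (cont_X z) (fun t => X_mem hz)))).add (continuous_const.mul hk)

lemma cont_sing {z z0 : ℝ} (hz : 0 < z) (hzz : z < z0) :
    Continuous fun t : ℝ => 1 / ((z0 - z) + z * cos t ^ 2) := by
  refine Continuous.div continuous_const (by fun_prop) ?_
  intro t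
  have := mul_nonneg hz.le (sq_nonneg (cos t))
  have h : 0 < (z0 - z) + z * cos t ^ 2 := by linarith
  exact h.ne'

lemma LF {r g : ℝ → ℝ} {z0 : ℝ} (hL : SqlStmt) (h0 : 0 < z0) (h1 : z0 < 1)
    (hr : AnalyticOnNhd ℝ r (Icc 0 z0)) (hg : AnalyticOnNhd ℝ g (Icc 0 z0)) :
    ∃ C : ℝ, ∀ z ∈ Icc 0 z0,
      |(∫ t in Ioo 0 (π / 2), FF r g z0 z t) - ∫ t in Ioo 0 (π / 2), FF r g z0 z0 t|
        ≤ C * (z0 - z) := by
  obtain ⟨L1, L2, L3, L4⟩ := hL z0 h0 h1
  have hP : AnalyticOnNhd ℝ (fun x => -dslope (fun x => r x * g x) z0 x) (Icc 0 z0) :=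
    (an_dslope (right_mem_Icc.2 h0.le) (hr.mul hg)).neg
  have hQ : AnalyticOnNhd ℝ (dslope r z0) (Icc 0 z0) := an_dslope (right_mem_Icc.2 h0.le) hr
  have hH : AnalyticOnNhd ℝ (dslope g 0) (Icc 0 z0) := an_dslope (left_mem_Icc.2 h0.le) hg
  obtain ⟨KP, _, lP⟩ := lip_of_an hP
  obtain ⟨KQ, _, lQ⟩ := lip_of_an hQ
  obtain ⟨KH, _, lH⟩ := lip_of_an hH
  obtain ⟨Kg, _, lg⟩ := lip_of_an hg
  have a1 := (L2 _ KP lP).1
  have a2 := (L2 _ KQ lQ).1
  have a3 := (L2 _ Kg lg).2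
  have a4 := (L2 _ KH lH).2
  have a5 := (L2 (fun _ => -r z0) 0 (fun x _ y _ => by simp)).1
  have b1 := (L3 _ _ a3 a2).2
  have b2 := (L3 _ _ a1 b1).1
  have b3 := (L3 _ _ a4 L1).2
  have b4 := (L3 _ _ a5 b3).2
  have b5 := (L3 _ _ b2 b4).1
  exact L4 (FF r g z0) b5 (fun z hz => cont_FF h0 h1 hr hg hz)

lemma kk_bound {g : ℝ → ℝ} {z0 : ℝ} (h0 : 0 < z0) (h1 : z0 < 1)
    (hg : AnalyticOnNhd ℝ g (Icc 0 z0)) :
    ∃ C : ℝ, 0 ≤ C ∧ ∀ z ∈ Icc 0 z0, ∀ t : ℝ,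
      |kk g z t - dslope g 0 0 / (1 - z)| ≤ C * cos t ^ 2 := by
  have hH : AnalyticOnNhd ℝ (dslope g 0) (Icc 0 z0) := an_dslope (left_mem_Icc.2 h0.le) hg
  obtain ⟨K, hK0, lH⟩ := lip_of_an hH
  refine ⟨(K + |dslope g 0 0|) / (1 - z0) ^ 2, by positivity, ?_⟩
  intro z hz t
  have hX := oneX_pos (t := t) hz h1
  have hu : 0 < 1 - z0 := by linarith
  have hX1 : 0 < 1 - z * sin t ^ 2 := by linarith
  have hz1 : 0 < 1 - z := by linarith [hz.2]
  have hY := Y_mem (t := t) hz h1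
  have hYl := Y_le (t := t) hz h1
  have hl := lH (Yv z t) hY 0 (left_mem_Icc.2 h0.le)
  rw [sub_zero, abs_of_nonneg hY.1] at hl
  have hc2 : 0 ≤ cos t ^ 2 := sq_nonneg _
  have hsc := sin_sq_add_cos_sq t
  set a := dslope g 0 (Yv z t) with ha
  set b := dslope g 0 0 with hb
  have e : kk g z t - b / (1 - z) =
      (a - b) * (1 / (1 - z * sin t ^ 2)) - b * (z * cos t ^ 2 / ((1 - z * sin t ^ 2) * (1 - z))) := by
    unfold kk
    rw [← ha]
    field_simp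
    have hs : sin t ^ 2 = 1 - cos t ^ 2 := by linarith
    rw [hs]
    ring
  rw [e]
  have i1 : 1 / (1 - z * sin t ^ 2) ≤ 1 / (1 - z0) := one_div_le_one_div_of_le hu hX
  have i2 : |(a - b) * (1 / (1 - z * sin t ^ 2))| ≤ K * (cos t ^ 2 / (1 - z0)) * (1 / (1 - z0)) := by
    rw [abs_mul, abs_of_pos (by positivity : 0 < 1 / (1 - z * sin t ^ 2))]
    refine mul_le_mul (hl.trans (mul_le_mul_of_nonneg_left hYl hK0)) i1 (by positivity)
      (by positivity)
  have i3 : z * cos t ^ 2 / ((1 - z * sin t ^ 2) * (1 - z)) ≤ cos t ^ 2 / (1 - z0) ^ 2 := by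
    refine div_le_div₀ hc2 ?_ (by positivity) ?_
    · nlinarith [hz.2]
    · rw [sq]
      exact mul_le_mul hX (by linarith [hz.2]) hu.le hX1.le
  have i4 : |b * (z * cos t ^ 2 / ((1 - z * sin t ^ 2) * (1 - z)))| ≤
      |b| * (cos t ^ 2 / (1 - z0) ^ 2) := by
    rw [abs_mul]
    refine mul_le_mul_of_nonneg_left ?_ (abs_nonneg b)
    rw [abs_of_nonneg]
    · exact i3
    · exact div_nonneg (mul_nonneg hz.1 hc2) (mul_nonneg hX1.le hz1.le)
  have i5 := abs_sub ((a - b) * (1 / (1 - z * sin t ^ 2)))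
    (b * (z * cos t ^ 2 / ((1 - z * sin t ^ 2) * (1 - z))))
  have i6 : K * (cos t ^ 2 / (1 - z0)) * (1 / (1 - z0)) + |b| * (cos t ^ 2 / (1 - z0) ^ 2) =
      (K + |b|) / (1 - z0) ^ 2 * cos t ^ 2 := by
    field_simp
  linarith

lemma main_est {r g : ℝ → ℝ} {z0 : ℝ} (hI : SqiStmt) (h0 : 0 < z0) (h1 : z0 < 1)
    (hr : AnalyticOnNhd ℝ r (Icc 0 z0)) (hg : AnalyticOnNhd ℝ g (Icc 0 z0))
    (hg0 : g z0 = g 0) :
    ∃ C : ℝ, ∀ z : ℝ, z0 / 2 < z → z < z0 →
      |(∫ t in Ioo 0 (π / 2), r (z * sin t ^ 2) * (g (z * sin t ^ 2) - g (Yv z t))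
        / (z0 - z * sin t ^ 2)) - (∫ t in Ioo 0 (π / 2), FF r g z0 z t) -
        r z0 * (dslope g 0 0 / (1 - z) * ((z0 - z) * (π / (2 * √((z0 - z) * z0)))))|
        ≤ C * (z0 - z) := by
  obtain ⟨C1, hC1, hk⟩ := kk_bound h0 h1 hg
  refine ⟨|r z0| * (C1 * (2 / z0) * (π / 2)), ?_⟩
  intro z hz hzz
  have hzp : 0 < z := by linarith
  have hzm : z ∈ Icc 0 z0 := ⟨hzp.le, hzz.le⟩
  have hD : 0 < z0 - z := by linarith
  have cF := cont_FF h0 h1 hr hg hzm
  have ck := cont_kk h0 h1 hg hzm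
  have cs := cont_sing hzp hzz
  set c := dslope g 0 0 / (1 - z) with hc
  have e1 : (∫ t in Ioo 0 (π / 2), r (z * sin t ^ 2) * (g (z * sin t ^ 2) - g (Yv z t))
        / (z0 - z * sin t ^ 2)) = (∫ t in Ioo 0 (π / 2), FF r g z0 z t) +
      r z0 * ∫ t in Ioo 0 (π / 2), (z0 - z) * (kk g z t * (1 / ((z0 - z) + z * cos t ^ 2))) := by
    rw [← integral_const_mul, ← integral_add (intg cF)]
    · exact integral_congr_ae (Eventually.of_forall (fun t => decomp h1 hg0 hzp hzz t))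
    · exact intg (continuous_const.mul (continuous_const.mul (ck.mul cs)))
  have e2 : (∫ t in Ioo 0 (π / 2), (z0 - z) * (kk g z t * (1 / ((z0 - z) + z * cos t ^ 2)))) =
      (∫ t in Ioo 0 (π / 2), (z0 - z) * ((kk g z t - c) * (1 / ((z0 - z) + z * cos t ^ 2)))) +
      c * ((z0 - z) * ∫ t in Ioo 0 (π / 2), 1 / ((z0 - z) + z * cos t ^ 2)) := by
    rw [← integral_const_mul, ← integral_const_mul, ← integral_add]
    · refine integral_congr_ae (Eventually.of_forall (fun t => ?_))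
      simp only
      ring
    · exact intg (continuous_const.mul ((ck.sub continuous_const).mul cs))
    · exact intg (continuous_const.mul (continuous_const.mul cs))
  have e3 := hI (z0 - z) z hD hzp
  have e4 : (z0 - z) + z = z0 := by ring
  rw [e4] at e3
  rw [e1, e2, e3]
  have e5 : (∫ t in Ioo 0 (π / 2), FF r g z0 z t) +
      r z0 * ((∫ t in Ioo 0 (π / 2), (z0 - z) *
        ((kk g z t - c) * (1 / ((z0 - z) + z * cos t ^ 2)))) +
        c * ((z0 - z) * (π / (2 * √((z0 - z) * z0))))) -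
      (∫ t in Ioo 0 (π / 2), FF r g z0 z t) -
        r z0 * (c * ((z0 - z) * (π / (2 * √((z0 - z) * z0))))) =
      r z0 * ∫ t in Ioo 0 (π / 2), (z0 - z) *
        ((kk g z t - c) * (1 / ((z0 - z) + z * cos t ^ 2))) := by ring
  rw [e5, abs_mul]
  have e6 : |∫ t in Ioo 0 (π / 2), (z0 - z) *
        ((kk g z t - c) * (1 / ((z0 - z) + z * cos t ^ 2)))| ≤
      C1 * (2 / z0) * (z0 - z) * (volume.real (Ioo 0 (π / 2))) := by
    have h := norm_setIntegral_le_of_norm_le_const (μ := volume) (s := Ioo 0 (π / 2))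
      (f := fun t => (z0 - z) * ((kk g z t - c) * (1 / ((z0 - z) + z * cos t ^ 2))))
      (C := C1 * (2 / z0) * (z0 - z)) (by rw [Real.volume_Ioo]; exact ENNReal.ofReal_lt_top) ?_
    · exact h
    · intro t _
      have hcz : 0 ≤ z * cos t ^ 2 := mul_nonneg hzp.le (sq_nonneg _)
      have hDp : 0 < (z0 - z) + z * cos t ^ 2 := by linarith
      rw [Real.norm_eq_abs, abs_mul, abs_mul, abs_of_pos hD,
        abs_of_pos (by positivity : 0 < 1 / ((z0 - z) + z * cos t ^ 2))]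
      have hk1 := hk z hzm t
      have j1 : |kk g z t - c| * (1 / ((z0 - z) + z * cos t ^ 2)) ≤
          C1 * cos t ^ 2 * (1 / ((z0 - z) + z * cos t ^ 2)) :=
        mul_le_mul_of_nonneg_right hk1 (by positivity)
      have j2 : cos t ^ 2 * (1 / ((z0 - z) + z * cos t ^ 2)) ≤ 2 / z0 := by
        rw [mul_one_div, div_le_div_iff₀ hDp h0]
        nlinarith [sq_nonneg (cos t)]
      have j3 : C1 * cos t ^ 2 * (1 / ((z0 - z) + z * cos t ^ 2)) ≤ C1 * (2 / z0) := by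
        rw [mul_assoc]
        exact mul_le_mul_of_nonneg_left j2 hC1
      calc (z0 - z) * (|kk g z t - c| * (1 / ((z0 - z) + z * cos t ^ 2)))
          ≤ (z0 - z) * (C1 * (2 / z0)) := mul_le_mul_of_nonneg_left (j1.trans j3) hD.le
        _ = C1 * (2 / z0) * (z0 - z) := by ring
  have e7 : volume.real (Ioo 0 (π / 2)) = π / 2 := by
    rw [Real.volume_real_Ioo_of_le (by positivity), sub_zero]
  rw [e7] at e6
  calc |r z0| * |∫ t in Ioo 0 (π / 2), (z0 - z) *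
        ((kk g z t - c) * (1 / ((z0 - z) + z * cos t ^ 2)))|
      ≤ |r z0| * (C1 * (2 / z0) * (z0 - z) * (π / 2)) :=
        mul_le_mul_of_nonneg_left e6 (abs_nonneg _)
    _ = |r z0| * (C1 * (2 / z0) * (π / 2)) * (z0 - z) := by ring

lemma sqrt_form {D z0 : ℝ} (hD : 0 < D) (h0 : 0 < z0) :
    D * (π / (2 * √(D * z0))) = √D * (π / (2 * √z0)) := by
  have h1 : √D * √D = D := Real.mul_self_sqrt hD.le
  have h2 : 0 < √D := Real.sqrt_pos.2 hD
  have h3 : 0 < √z0 := Real.sqrt_pos.2 h0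
  rw [Real.sqrt_mul hD.le]
  field_simp
  rw [sq]
  exact h1.symm

theorem sqc (hI : SqiStmt) (hL : SqlStmt) : SqcStmt := by
  intro z0 r g h0 h1 hr hg hg0 hyp
  obtain ⟨K, C, hyp⟩ := hyp
  obtain ⟨C2, hC2⟩ := main_est hI h0 h1 hr hg hg0
  obtain ⟨C3, hC3⟩ := LF hL h0 h1 hr hg
  rw [← dslope_same g 0]
  set b := dslope g 0 0 with hb
  set M0 := ∫ t in Ioo 0 (π / 2), FF r g z0 z0 t with hM0
  set C' := C + C2 + C3 with hC'
  set c := r z0 * b * (π / (2 * √z0)) with hc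
  have hz0s : 0 < √z0 := Real.sqrt_pos.2 h0
  have hev : ∀ᶠ z in 𝓝[<] z0, z0 / 2 < z := by
    have : ∀ᶠ z in 𝓝 z0, z0 / 2 < z := eventually_gt_nhds (by linarith)
    exact this.filter_mono nhdsWithin_le_nhds
  have hev2 : ∀ᶠ z in 𝓝[<] z0, z < z0 := eventually_mem_nhdsWithin
  have key : ∀ᶠ z in 𝓝[<] z0,
      |(K - M0) - √(z0 - z) * (c / (1 - z))| ≤ C' * (z0 - z) ∧ z < z0 := by
    filter_upwards [hyp, hev, hev2] with z e1 e2 e3
    refine ⟨?_, e3⟩
    have hD : 0 < z0 - z := by linarith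
    have f1 := hC2 z e2 e3
    have f2 := hC3 z ⟨by linarith, e3.le⟩
    rw [sqrt_form hD h0] at f1
    have hz1 : 0 < 1 - z := by linarith
    have e4 : r z0 * (b / (1 - z) * (√(z0 - z) * (π / (2 * √z0)))) =
        √(z0 - z) * (c / (1 - z)) := by
      rw [hc]
      ring
    rw [e4] at f1
    rw [abs_le] at e1 f1 f2 ⊢
    rw [hC']
    constructor
    · linarith [e1.1, e1.2, f1.1, f1.2, f2.1, f2.2]
    · linarith [e1.1, e1.2, f1.1, f1.2, f2.1, f2.2]
  have t1 : Tendsto (fun z => z0 - z) (𝓝[<] z0) (𝓝 0) := by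
    have h : Tendsto (fun z => z0 - z) (𝓝 z0) (𝓝 (z0 - z0)) :=
      (continuous_const.sub continuous_id).tendsto z0
    rw [sub_self] at h
    exact h.mono_left nhdsWithin_le_nhds
  have t2 : Tendsto (fun z => √(z0 - z)) (𝓝[<] z0) (𝓝 0) := by
    have h := (Real.continuous_sqrt.tendsto 0).comp t1
    rw [Real.sqrt_zero] at h
    exact h
  have t3 : Tendsto (fun z => c / (1 - z)) (𝓝[<] z0) (𝓝 (c / (1 - z0))) := by
    have h : Tendsto (fun z => 1 - z) (𝓝 z0) (𝓝 (1 - z0)) :=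
      (continuous_const.sub continuous_id).tendsto z0
    have hne : (1 - z0) ≠ 0 := by linarith
    exact (tendsto_const_nhds.div h hne).mono_left nhdsWithin_le_nhds
  have t4 : Tendsto (fun z => C' * (z0 - z)) (𝓝[<] z0) (𝓝 0) := by
    have h := t1.const_mul C'
    rw [mul_zero] at h
    exact h
  have kz : K - M0 = 0 := by
    have h := (tendsto_const_nhds (x := K - M0) (f := 𝓝[<] z0)).sub (t2.mul t3)
    rw [zero_mul, sub_zero] at h
    have h2 := h.abs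
    have h3 : |K - M0| ≤ 0 := le_of_tendsto_of_tendsto h2 t4 (key.mono (fun z hz => hz.1))
    exact abs_nonpos_iff.1 h3
  have key2 : ∀ᶠ z in 𝓝[<] z0, |c / (1 - z)| ≤ C' * √(z0 - z) := by
    filter_upwards [key] with z hz
    have hD : 0 < z0 - z := by linarith [hz.2]
    have hs : 0 < √(z0 - z) := Real.sqrt_pos.2 hD
    have h2 := hz.1
    rw [kz, zero_sub, abs_neg, abs_mul, abs_of_pos hs] at h2
    have h3 : C' * (z0 - z) = √(z0 - z) * (C' * √(z0 - z)) := by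
      have := Real.mul_self_sqrt hD.le
      calc C' * (z0 - z) = C' * (√(z0 - z) * √(z0 - z)) := by rw [this]
        _ = √(z0 - z) * (C' * √(z0 - z)) := by ring
    rw [h3] at h2
    exact le_of_mul_le_mul_left h2 hs
  have t5 : Tendsto (fun z => C' * √(z0 - z)) (𝓝[<] z0) (𝓝 0) := by
    have h := t2.const_mul C'
    rw [mul_zero] at h
    exact h
  have h6 : |c / (1 - z0)| ≤ 0 := le_of_tendsto_of_tendsto t3.abs t5 key2
  have h7 : c / (1 - z0) = 0 := abs_nonpos_iff.1 h6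
  have h8 : c = 0 := by
    rcases div_eq_zero_iff.1 h7 with h | h
    · exact h
    · exfalso
      linarith
  rw [hc] at h8
  rcases mul_eq_zero.1 h8 with h | h
  · exact h
  · exfalso
    have : 0 < π / (2 * √z0) := by positivity
    linarith

end Pool.Agent.QUD.H50
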