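import Pool.Agent.QUD.StmtsR

/-!
# Squad QUD, row SSY (helper50): symmetries of the strip quadrilaterals
-/

set_option autoImplicit false

namespace Pool.Agent.QUD.H50

open Complex Pool.Agent.H16Iso Pool.Agent.QUD
open Pool.Agent.H1Gen (det CCW poly)

lemma img_range (v w : Fin 4 → ℂ) (g : ℂ ≃ᵢ ℂ) (σ : Fin 4 → Fin 4) (hσ : Function.Surjective σ)
    (h : ∀ i, g (v i) = w (σ i)) : g '' Set.range v = Set.range w := by
  rw [← Set.range_comp]
  have h1 : (g ∘ v) = w ∘ σ := by
    funext i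
    exact h i
  rw [h1, hσ.range_comp]

theorem ssy (hp : PcgStmt) : SsyStmt := by
  intro h B δ ε
  constructor
  · refine hp _ _ (Complex.conjLIE.toIsometryEquiv.trans (IsometryEquiv.addRight (-(δ : ℂ)))) ?_
    refine img_range _ _ _ ![1, 0, 3, 2] ?_ ?_
    · intro b
      fin_cases b
      · exact ⟨1, rfl⟩
      · exact ⟨0, rfl⟩
      · exact ⟨3, rfl⟩
      · exact ⟨2, rfl⟩
    · intro i
      fin_cases i <;> apply Complex.ext <;> simp [sq] <;> ring
  · refine hp _ _ (IsometryEquiv.subLeft (((B + ε : ℝ)) : ℂ)) ?_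
    refine img_range _ _ _ ![2, 3, 0, 1] ?_ ?_
    · intro b
      fin_cases b
      · exact ⟨2, rfl⟩
      · exact ⟨3, rfl⟩
      · exact ⟨0, rfl⟩
      · exact ⟨1, rfl⟩
    · intro i
      fin_cases i <;> apply Complex.ext <;> simp [sq]

end Pool.Agent.QUD.H50
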